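import Pool.Agent.Run7.h612.SP.Main

/-!
Galois invariant pencils on the etale Galois covers of a surface of general type: the canonical
degree grows at least linearly with the degree of the cover.
-/

set_option autoImplicit false

open FF Pool.Agent.W602.GT Pool.Agent.Helper700 IntermediateField Run7.h612.SP

namespace Pool.Agent.Results.MP_0e7fb3_ag.InvariantPencils

/-- Let `S` be a complex surface of general type with function field `K`, with three `N`-canonical
forms which have two algebraically independent ratios. Let `S' → S` be an etale Galois cover of
degree `d`, with function field `L`, and let `E` be a pencil on `S'` of canonical degree at most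
`C` which is mapped to itself by the Galois group. If the base of the pencil is rational, or
`q (S') = 0`, then `d ≤ 12 C N`. -/
theorem result (K L : Type) [Field K] [Field L] [Algebra ℂ K] [Algebra ℂ L] [Algebra K L]
    [IsScalarTower ℂ K L] [Algebra.EssFiniteType ℂ K] [FiniteDimensional K L] [IsGalois K L]
    (N C : ℕ) (hN : GeneralTypeAt K N) (hu : Unr K L) (E : IntermediateField ℂ L)
    (hE : IsPencil E) (hC : CanonicalDegreeLe E C) (hq : (∃ z : E, ℂ⟮z⟯ = ⊤) ∨ QZero L)
    (hst : ∀ (σ : L ≃ₐ[K] L) (z : L), z ∈ E → σ z ∈ E) :
    Module.finrank K L ≤ 12 * (C * N) :=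
  bound_stable hN hu hE hC hq hst

end Pool.Agent.Results.MP_0e7fb3_ag.InvariantPencils
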